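import Pool.Agent.Helper30.TG.Ori

/-!
# Project TG (helper30), part FACE3
-/

set_option autoImplicit false

namespace Pool.Agent.Helper36.TG

open Pool.Agent.Helper30.TriFace Pool.Agent.Helper30.TG
open scoped Classical

theorem FACE3.main (hISF : S_ISF) (hTRG : S_TRG) (hBND : S_BND) : S_FACE3 := by
  intro n D p hD hn hp
  have hb := hBND p n hn hp
  unfold TT numThreeFaces
  set S := (Fc p n).filter fun U => kk p n U = 3 with hS
  have hinj : Set.InjOn (fun U => Cel (sl p) (ic p) (EE n) U) (S : Set (Finset (ℕ × ℕ))) := by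
    intro U hU U' hU' h
    have hU1 : U ∈ Fc p n := (Finset.mem_filter.1 hU).1
    have hU2 : U' ∈ Fc p n := (Finset.mem_filter.1 hU').1
    unfold Fc at hU1 hU2
    rw [Finset.mem_filter, Finset.mem_powerset] at hU1 hU2
    obtain ⟨q, hq⟩ := hU1.2.1
    have hq' : q ∈ Cel (sl p) (ic p) (EE n) U' := by
      have h' : Cel (sl p) (ic p) (EE n) U = Cel (sl p) (ic p) (EE n) U' := h
      rw [← h']
      exact hq
    ext e
    constructor
    · intro he
      by_contra hc
      have h1 := (hq e (hU1.1 he)).1 he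
      have h2 := (hq' e (hU1.1 he)).2 hc
      linarith
    · intro he
      by_contra hc
      have h1 := (hq' e (hU2.1 he)).1 he
      have h2 := (hq e (hU2.1 he)).2 hc
      linarith
  have hcard : S.card = (S.image fun U => Cel (sl p) (ic p) (EE n) U).card :=
    (Finset.card_image_of_injOn hinj).symm
  rw [hcard, ← Set.ncard_coe_finset]
  apply Set.ncard_le_ncard _ (threeFaces_finite D)
  intro F hF
  rw [Finset.coe_image] at hF
  obtain ⟨U, hU, rfl⟩ := hF
  obtain ⟨hU1, hU2⟩ := Finset.mem_filter.1 hU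
  obtain ⟨x, y, z, h1, h2⟩ := hTRG (sl p) (ic p) (EE n) U hb.1 (hb.2 U hU1) hU2
  exact ⟨hISF n D p hD hn hp U hU1, x, y, z, h1, h2⟩

end Pool.Agent.Helper36.TG
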