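import Pool.Agent.Helper36.TG.INS

/-!
# Project TG (helper30), part HUL
-/

set_option autoImplicit false

namespace Pool.Agent.Helper36.TG

open Pool.Agent.Helper30.TriFace Pool.Agent.Helper30.TG
open scoped Classical

theorem HUL.main : S_HUL := by
  intro p n hn hp q hq
  have h1 : ∀ i, i + 1 < n → 0 < det3 (p i) (p (i + 1)) q := by
    intro i hi
    have hs : ((i, i + 1) : ℕ × ℕ) ∈ PE n := by
      rw [mem_PE]
      dsimp only
      omega
    obtain ⟨k, hk, hk1, hk2⟩ : ∃ k < n, k ≠ i ∧ k ≠ i + 1 := by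
      by_cases h0 : i = 0
      · exact ⟨2, by omega, by omega, by omega⟩
      · exact ⟨0, by omega, by omega, by omega⟩
    have h2 := side_sign hp hs (hq _ hs).1 (hq _ hs).2 hk hk1 hk2
    have h3 : 0 < det3 (p i) (p (i + 1)) (p k) := det3_out hp (by omega) hi hk (by omega)
    exact pos_of_mul_pos_left h2 h3.le
  have h2 : det3 (p 0) (p (n - 1)) q < 0 := by
    have hs : ((0, n - 1) : ℕ × ℕ) ∈ PE n := by
      rw [mem_PE]
      dsimp only
      omega
    have h2 := side_sign hp hs (hq _ hs).1 (hq _ hs).2 (k := 1) (by omega) (by dsimp only; omega)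
      (by dsimp only; omega)
    have h3 : det3 (p 0) (p (n - 1)) (p 1) < 0 :=
      det3_in hp (by omega) (by omega) (by omega) (by omega)
    dsimp only at h2
    by_contra hc
    push Not at hc
    nlinarith
  have hex : ∃ j, 1 ≤ j ∧ det3 (p 0) (p j) q < 0 := ⟨n - 1, by omega, h2⟩
  obtain ⟨hj1, hj2⟩ := Nat.find_spec hex
  set j := Nat.find hex with hj
  have hjn : j ≤ n - 1 := Nat.find_min' hex ⟨by omega, h2⟩
  have hj0 : j ≠ 1 := by
    intro h
    rw [h] at hj2
    have := h1 0 (by omega)
    simp only [zero_add] at this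
    linarith
  obtain ⟨k, hk⟩ : ∃ k, j = k + 1 := ⟨j - 1, by omega⟩
  have hk1 : 1 ≤ k := by omega
  have hk2 : 0 ≤ det3 (p 0) (p k) q := by
    have := Nat.find_min hex (m := k) (by omega)
    by_contra hc
    push Not at hc
    exact this ⟨hk1, hc⟩
  rw [hk] at hj2
  have h3 := bary_mem (a := p 0) (b := p k) (c := p (k + 1)) (x := q)
    (hp.1 0 k (k + 1) (by omega) (by omega) (by omega))
    (by
      rw [det3_cyc]
      exact (h1 k (by omega)).le)
    (by
      rw [det3_swap]
      linarith) hk2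
  refine convexHull_mono ?_ h3
  intro x hx
  simp only [Set.mem_insert_iff, Set.mem_singleton_iff] at hx
  rcases hx with rfl | rfl | rfl
  · exact ⟨0, (show (0 : ℕ) < n by omega), rfl⟩
  · exact ⟨k, (show k < n by omega), rfl⟩
  · exact ⟨k + 1, (show k + 1 < n by omega), rfl⟩

end Pool.Agent.Helper36.TG
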