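import Pool.Agent.Helper30.TG.Ori

/-!
# Project TG (helper30), part INS
-/

set_option autoImplicit false

namespace Pool.Agent.Helper36.TG

open Pool.Agent.Helper30.TriFace Pool.Agent.Helper30.TG
open scoped Classical

/-- a side at the vertex `v` which does not contain `w` -/
theorem exists_side {n v w : ℕ} (hn : 3 ≤ n) (hv : v < n) :
    ∃ s ∈ PE n, (s.1 = v ∨ s.2 = v) ∧ (v ≠ w → s.1 ≠ w ∧ s.2 ≠ w) := by
  simp only [mem_PE]
  by_cases h0 : v = 0
  · by_cases hw : w = 1
    · exact ⟨(0, n - 1), by dsimp only; omega, by dsimp only; omega, by dsimp only; omega⟩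
    · exact ⟨(0, 1), by dsimp only; omega, by dsimp only; omega, by dsimp only; omega⟩
  · by_cases hw : w = v - 1
    · by_cases h1 : v = n - 1
      · exact ⟨(0, n - 1), by dsimp only; omega, by dsimp only; omega, by dsimp only; omega⟩
      · exact ⟨(v, v + 1), by dsimp only; omega, by dsimp only; omega, by dsimp only; omega⟩
    · exact ⟨(v - 1, v), by dsimp only; omega, by dsimp only; omega, by dsimp only; omega⟩

/-- A point which satisfies the inequality of the side `s` is on the same side of `s` as the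
vertices. -/
theorem side_sign {p : ℕ → ℝ × ℝ} {n : ℕ} (hp : Pos p n) {s : ℕ × ℕ} (hs : s ∈ PE n)
    {q : ℝ × ℝ} (h1 : Up p n s → q.2 < ln (sl p) (ic p) s q.1)
    (h2 : ¬ Up p n s → ln (sl p) (ic p) s q.1 < q.2) {k : ℕ} (hk : k < n) (hk1 : k ≠ s.1)
    (hk2 : k ≠ s.2) : 0 < det3 (p s.1) (p s.2) q * det3 (p s.1) (p s.2) (p k) := by
  have hs' : s ∈ EE n := (Finset.mem_filter.1 hs).1
  have hne := ne_of_EE hp hs'
  rw [det3_ln hp hs', det3_ln hp hs']
  have hx : 0 < ((p s.2).1 - (p s.1).1) ^ 2 := by positivity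
  rcases (ori p n hp).2.2 s hs with h | h
  · have h3 := h1 h
    have h4 := h k hk hk1 hk2
    have : 0 < (ln (sl p) (ic p) s q.1 - q.2) * (ln (sl p) (ic p) s (p k).1 - (p k).2) :=
      mul_pos (by linarith) (by linarith)
    have := mul_pos hx this
    nlinarith
  · have h4 := h k hk hk1 hk2
    have h3 := h2 (fun hu => by
      have := hu k hk hk1 hk2
      linarith)
    have : 0 < (q.2 - ln (sl p) (ic p) s q.1) * ((p k).2 - ln (sl p) (ic p) s (p k).1) :=
      mul_pos (by linarith) (by linarith)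
    have := mul_pos hx this
    nlinarith

/-- A point of the line beyond a vertex is not strictly inside all the other sides. -/
theorem beyond_false {p : ℕ → ℝ × ℝ} {n : ℕ} (hn : 3 ≤ n) (hp : Pos p n) {e : ℕ × ℕ} {v w : ℕ}
    (hv : v < n) (hw : w < n) (hvw : v ≠ w) (he : e.1 = w ∨ e.2 = w) {q : ℝ × ℝ}
    (hq : ∀ s ∈ PE n, s ≠ e → (Up p n s → q.2 < ln (sl p) (ic p) s q.1) ∧
      (¬ Up p n s → ln (sl p) (ic p) s q.1 < q.2)) {r : ℝ} (hr : 0 ≤ r)
    (h1 : q.1 = (p v).1 + r * ((p v).1 - (p w).1))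
    (h2 : q.2 = (p v).2 + r * ((p v).2 - (p w).2)) : False := by
  obtain ⟨s, hs, hsv, hsw⟩ := exists_side (w := w) hn hv
  obtain ⟨hw1, hw2⟩ := hsw hvw
  have hse : s ≠ e := by
    rintro rfl
    rcases he with h | h
    · exact hw1 h
    · exact hw2 h
  have h3 := side_sign hp hs (hq s hs hse).1 (hq s hs hse).2 hw (Ne.symm hw1) (Ne.symm hw2)
  have h4 : det3 (p s.1) (p s.2) q = - r * det3 (p s.1) (p s.2) (p w) := by
    rcases hsv with h | h
    · rw [h]
      unfold det3
      rw [h1, h2]
      ring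
    · rw [h]
      unfold det3
      rw [h1, h2]
      ring
  rw [h4] at h3
  nlinarith [mul_nonneg hr (mul_self_nonneg (det3 (p s.1) (p s.2) (p w)))]

theorem INS.main : S_INS := by
  intro p n hn hp U hU e he t ht
  unfold Fc at hU
  rw [Finset.mem_filter] at hU
  obtain ⟨-, -, hU⟩ := hU
  have hne := ne_of_EE hp he
  by_contra hc
  push Not at hc
  obtain ⟨h12, h2n⟩ := mem_EE.1 he
  have hq : ∀ s ∈ PE n, s ≠ e → (Up p n s → ln (sl p) (ic p) e t < ln (sl p) (ic p) s t) ∧
      (¬ Up p n s → ln (sl p) (ic p) s t < ln (sl p) (ic p) e t) := by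
    intro s hs hse
    have h1 := ht s (Finset.mem_filter.1 hs).1 hse
    have h2 := hU s hs
    exact ⟨fun h => h1.1 (h2.2 h), fun h => h1.2 (fun h3 => h (h2.1 h3))⟩
  -- the parameter
  set u := (t - (p e.1).1) / ((p e.2).1 - (p e.1).1) with hu
  have ht1 : t = (p e.1).1 + u * ((p e.2).1 - (p e.1).1) := by
    rw [hu]
    field_simp
    ring
  have ht2 : ln (sl p) (ic p) e t = (p e.1).2 + u * ((p e.2).2 - (p e.1).2) := by
    have hs : sl p e * ((p e.2).1 - (p e.1).1) = (p e.2).2 - (p e.1).2 := by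
      unfold sl
      field_simp
    unfold ln ic
    rw [ht1]
    linear_combination u * hs
  have h3 : (t - (p e.1).1) * (t - (p e.2).1) = u * (u - 1) * ((p e.2).1 - (p e.1).1) ^ 2 := by
    rw [ht1]
    ring
  rw [h3] at hc
  have hx : 0 < ((p e.2).1 - (p e.1).1) ^ 2 := by positivity
  have h4 : 0 ≤ u * (u - 1) := by
    by_contra h
    push Not at h
    have := mul_neg_of_neg_of_pos h hx
    linarith
  have h5 : u ≤ 0 ∨ 1 ≤ u := by
    by_contra h
    push Not at h
    nlinarith [h.1, h.2]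
  rcases h5 with h5 | h5
  · exact beyond_false (e := e) (q := (t, ln (sl p) (ic p) e t)) hn hp (v := e.1) (w := e.2)
      (by omega) h2n (by omega) (Or.inr rfl) hq (r := - u) (by linarith) (by
        dsimp only
        rw [ht1]
        ring) (by
        dsimp only
        rw [ht2]
        ring)
  · exact beyond_false (e := e) (q := (t, ln (sl p) (ic p) e t)) hn hp (v := e.2) (w := e.1)
      h2n (by omega) (by omega) (Or.inl rfl) hq (r := u - 1) (by linarith) (by
        dsimp only
        rw [ht1]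
        ring) (by
        dsimp only
        rw [ht2]
        ring)

end Pool.Agent.Helper36.TG

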