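import Pool.Agent.Helper30.TG.Ori

/-!
# Project TG (helper30), part TRG
-/

set_option autoImplicit false

namespace Pool.Agent.Helper36.TG

open Pool.Agent.Helper30.TriFace Pool.Agent.Helper30.TG
open scoped Classical

theorem det_std (a b : ℝ) (x : ℝ × ℝ) :
    det3 ((0, b) : ℝ × ℝ) ((1, a + b) : ℝ × ℝ) x = x.2 - (a * x.1 + b) := by
  unfold det3
  ring

theorem det_rev (a b : ℝ) (x : ℝ × ℝ) :
    det3 ((1, a + b) : ℝ × ℝ) ((0, b) : ℝ × ℝ) x = -(x.2 - (a * x.1 + b)) := by
  unfold det3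
  ring

/-- two upper lines and a lower line -/
theorem triA {a1 b1 a2 b2 c d t0 : ℝ} (h1 : c < a1) (h2 : a2 < c)
    (h3 : c * t0 + d < a1 * t0 + b1) (h4 : c * t0 + d < a2 * t0 + b2) :
    ∃ x y z : ℝ × ℝ, AffineIndependent ℝ ![x, y, z] ∧
      {q : ℝ × ℝ | q.2 < a1 * q.1 + b1 ∧ q.2 < a2 * q.1 + b2 ∧ c * q.1 + d < q.2} =
        interior (convexHull ℝ {x, y, z}) := by
  obtain ⟨t1, e1⟩ : ∃ t1, (a1 - c) * t1 = d - b1 :=
    ⟨(d - b1) / (a1 - c), by rw [mul_comm]; exact div_mul_cancel₀ _ (by linarith)⟩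
  obtain ⟨t2, e2⟩ : ∃ t2, (a2 - c) * t2 = d - b2 :=
    ⟨(d - b2) / (a2 - c), by rw [mul_comm]; exact div_mul_cancel₀ _ (by linarith)⟩
  obtain ⟨t3, e3⟩ : ∃ t3, (a1 - a2) * t3 = b2 - b1 :=
    ⟨(b2 - b1) / (a1 - a2), by rw [mul_comm]; exact div_mul_cancel₀ _ (by linarith)⟩
  have g1 : t1 < t0 := by
    by_contra hc
    push Not at hc
    nlinarith [mul_nonneg (sub_nonneg.2 hc) (sub_pos.2 h1).le]
  have g2 : t0 < t2 := by
    by_contra hc
    push Not at hc
    nlinarith [mul_nonneg (sub_nonneg.2 hc) (sub_pos.2 h2).le]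
  have g12 : 0 < (a1 - c) * (t2 - t1) := mul_pos (by linarith) (by linarith)
  have g21 : 0 < (c - a2) * (t2 - t1) := mul_pos (by linarith) (by linarith)
  have g3 : t1 < t3 := by
    by_contra hc
    push Not at hc
    have : 0 ≤ (a1 - a2) * (t1 - t3) := mul_nonneg (by linarith) (by linarith)
    nlinarith
  have g13 : 0 < (a1 - c) * (t3 - t1) := mul_pos (by linarith) (by linarith)
  have hdet : det3 (t3, a1 * t3 + b1) (t1, a1 * t1 + b1) (t2, a2 * t2 + b2) ≠ 0 := by
    have : det3 (t3, a1 * t3 + b1) (t1, a1 * t1 + b1) (t2, a2 * t2 + b2) =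
        (t1 - t3) * (a2 * t2 + b2 - (a1 * t2 + b1)) := by
      unfold det3
      ring
    rw [this]
    apply mul_ne_zero
    · linarith
    · nlinarith
  refine ⟨(t3, a1 * t3 + b1), (t1, a1 * t1 + b1), (t2, a2 * t2 + b2), affInd_of_det hdet, ?_⟩
  rw [interior_triangle (p0 := (0, d)) (q0 := (1, c + d)) (p1 := (0, b2)) (q1 := (1, a2 + b2))
    (p2 := (1, a1 + b1)) (q2 := (0, b1)) hdet]
  · ext q
    simp only [Set.mem_ofPred_eq, det_std, det_rev]
    constructor
    · rintro ⟨k1, k2, k3⟩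
      exact ⟨by linarith, by linarith, by linarith⟩
    · rintro ⟨k1, k2, k3⟩
      exact ⟨by linarith, by linarith, by linarith⟩
  · rw [det_std]
    dsimp only
    linarith
  · rw [det_std]
    dsimp only
    linarith
  · rw [det_std]
    dsimp only
    linarith
  · rw [det_std]
    dsimp only
    linarith
  · rw [det_std]
    dsimp only
    linarith
  · rw [det_std]
    dsimp only
    linarith
  · rw [det_rev]
    dsimp only
    linarith
  · rw [det_rev]
    dsimp only
    linarith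
  · rw [det_rev]
    dsimp only
    linarith

/-- two lower lines and an upper line -/
theorem triB {a1 b1 a2 b2 c d t0 : ℝ} (h1 : a1 < c) (h2 : c < a2)
    (h3 : a1 * t0 + b1 < c * t0 + d) (h4 : a2 * t0 + b2 < c * t0 + d) :
    ∃ x y z : ℝ × ℝ, AffineIndependent ℝ ![x, y, z] ∧
      {q : ℝ × ℝ | a1 * q.1 + b1 < q.2 ∧ a2 * q.1 + b2 < q.2 ∧ q.2 < c * q.1 + d} =
        interior (convexHull ℝ {x, y, z}) := by
  obtain ⟨t1, e1⟩ : ∃ t1, (a1 - c) * t1 = d - b1 :=
    ⟨(d - b1) / (a1 - c), by rw [mul_comm]; exact div_mul_cancel₀ _ (by linarith)⟩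
  obtain ⟨t2, e2⟩ : ∃ t2, (a2 - c) * t2 = d - b2 :=
    ⟨(d - b2) / (a2 - c), by rw [mul_comm]; exact div_mul_cancel₀ _ (by linarith)⟩
  obtain ⟨t3, e3⟩ : ∃ t3, (a1 - a2) * t3 = b2 - b1 :=
    ⟨(b2 - b1) / (a1 - a2), by rw [mul_comm]; exact div_mul_cancel₀ _ (by linarith)⟩
  have g1 : t1 < t0 := by
    by_contra hc
    push Not at hc
    nlinarith [mul_nonneg (sub_nonneg.2 hc) (sub_pos.2 h1).le]
  have g2 : t0 < t2 := by
    by_contra hc
    push Not at hc
    nlinarith [mul_nonneg (sub_nonneg.2 hc) (sub_pos.2 h2).le]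
  have g12 : 0 < (c - a1) * (t2 - t1) := mul_pos (by linarith) (by linarith)
  have g21 : 0 < (a2 - c) * (t2 - t1) := mul_pos (by linarith) (by linarith)
  have g3 : t1 < t3 := by
    by_contra hc
    push Not at hc
    have : 0 ≤ (a2 - a1) * (t1 - t3) := mul_nonneg (by linarith) (by linarith)
    nlinarith
  have g13 : 0 < (c - a1) * (t3 - t1) := mul_pos (by linarith) (by linarith)
  have hdet : det3 (t3, a1 * t3 + b1) (t1, a1 * t1 + b1) (t2, a2 * t2 + b2) ≠ 0 := by
    have : det3 (t3, a1 * t3 + b1) (t1, a1 * t1 + b1) (t2, a2 * t2 + b2) =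
        (t1 - t3) * (a2 * t2 + b2 - (a1 * t2 + b1)) := by
      unfold det3
      ring
    rw [this]
    apply mul_ne_zero
    · linarith
    · nlinarith
  refine ⟨(t3, a1 * t3 + b1), (t1, a1 * t1 + b1), (t2, a2 * t2 + b2), affInd_of_det hdet, ?_⟩
  rw [interior_triangle (p0 := (1, c + d)) (q0 := (0, d)) (p1 := (1, a2 + b2)) (q1 := (0, b2))
    (p2 := (0, b1)) (q2 := (1, a1 + b1)) hdet]
  · ext q
    simp only [Set.mem_ofPred_eq, det_std, det_rev]
    constructor
    · rintro ⟨k1, k2, k3⟩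
      exact ⟨by linarith, by linarith, by linarith⟩
    · rintro ⟨k1, k2, k3⟩
      exact ⟨by linarith, by linarith, by linarith⟩
  · rw [det_rev]
    dsimp only
    linarith
  · rw [det_rev]
    dsimp only
    linarith
  · rw [det_rev]
    dsimp only
    linarith
  · rw [det_rev]
    dsimp only
    linarith
  · rw [det_rev]
    dsimp only
    linarith
  · rw [det_rev]
    dsimp only
    linarith
  · rw [det_std]
    dsimp only
    linarith
  · rw [det_std]
    dsimp only
    linarith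
  · rw [det_std]
    dsimp only
    linarith

variable {ι : Type} {a b : ι → ℝ} {E U : Finset ι}

/-- slopes of two linear functions which are both positive on a bounded nonempty set only -/
theorem slopes {α1 β1 α2 β2 t0 M : ℝ} (h1 : 0 < α1 * t0 + β1) (h2 : 0 < α2 * t0 + β2)
    (hM : ∀ t, 0 < α1 * t + β1 → 0 < α2 * t + β2 → |t| ≤ M) :
    (0 < α1 ∧ α2 < 0) ∨ (α1 < 0 ∧ 0 < α2) := by
  have hM0 : 0 ≤ M := (abs_nonneg t0).trans (hM t0 h1 h2)
  have hA : ¬ (0 ≤ α1 ∧ 0 ≤ α2) := by
    rintro ⟨k1, k2⟩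
    have h3 := le_max_left t0 (M + 1)
    have h4 := le_max_right t0 (M + 1)
    have h5 := hM (max t0 (M + 1)) (by nlinarith [mul_nonneg k1 (sub_nonneg.2 h3)])
      (by nlinarith [mul_nonneg k2 (sub_nonneg.2 h3)])
    have := le_abs_self (max t0 (M + 1))
    linarith
  have hB : ¬ (α1 ≤ 0 ∧ α2 ≤ 0) := by
    rintro ⟨k1, k2⟩
    have h3 := min_le_left t0 (-M - 1)
    have h4 := min_le_right t0 (-M - 1)
    have h5 := hM (min t0 (-M - 1))
      (by nlinarith [mul_nonneg (neg_nonneg.2 k1) (sub_nonneg.2 h3)])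
      (by nlinarith [mul_nonneg (neg_nonneg.2 k2) (sub_nonneg.2 h3)])
    have := neg_abs_le (min t0 (-M - 1))
    linarith
  by_cases k1 : 0 ≤ α1
  · have k2 : α2 < 0 := by
      by_contra hc
      exact hA ⟨k1, not_lt.1 hc⟩
    left
    refine ⟨lt_of_le_of_ne k1 fun h => hB ⟨h.symm.le, k2.le⟩, k2⟩
  · push Not at k1
    right
    refine ⟨k1, ?_⟩
    by_contra hc
    exact hB ⟨k1.le, not_lt.1 hc⟩

theorem mainA (hBC : BC a b E U) {e g h : ι}
    (hq : ∀ q : ℝ × ℝ, q ∈ Cel a b E U ↔
      (q.2 < ln a b e q.1 ∧ q.2 < ln a b g q.1 ∧ ln a b h q.1 < q.2)) :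
    ∃ x y z : ℝ × ℝ, AffineIndependent ℝ ![x, y, z] ∧
      Cel a b E U = interior (convexHull ℝ {x, y, z}) := by
  obtain ⟨-, ⟨q0, hq0⟩, ⟨M, hM⟩, -⟩ := hBC
  have h0 := (hq q0).1 hq0
  unfold ln at hq h0
  have hsl := slopes (α1 := a e - a h) (β1 := b e - b h) (α2 := a g - a h) (β2 := b g - b h)
    (t0 := q0.1) (M := M) (by linarith) (by linarith) (by
      intro t k1 k2
      have h1 : a h * t + b h < min (a e * t + b e) (a g * t + b g) :=
        lt_min (by linarith) (by linarith)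
      have h2 := min_le_left (a e * t + b e) (a g * t + b g)
      have h3 := min_le_right (a e * t + b e) (a g * t + b g)
      exact hM (t, (a h * t + b h + min (a e * t + b e) (a g * t + b g)) / 2)
        ((hq _).2 ⟨by dsimp only; linarith, by dsimp only; linarith, by dsimp only; linarith⟩))
  rcases hsl with ⟨k1, k2⟩ | ⟨k1, k2⟩
  · obtain ⟨x, y, z, r1, r2⟩ := triA (a1 := a e) (b1 := b e) (a2 := a g) (b2 := b g) (c := a h)
      (d := b h) (t0 := q0.1) (by linarith) (by linarith) (by linarith) (by linarith)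
    refine ⟨x, y, z, r1, ?_⟩
    rw [← r2]
    ext q
    exact hq q
  · obtain ⟨x, y, z, r1, r2⟩ := triA (a1 := a g) (b1 := b g) (a2 := a e) (b2 := b e) (c := a h)
      (d := b h) (t0 := q0.1) (by linarith) (by linarith) (by linarith) (by linarith)
    refine ⟨x, y, z, r1, ?_⟩
    rw [← r2]
    ext q
    rw [hq q]
    simp only [Set.mem_ofPred_eq]
    tauto

theorem mainB (hBC : BC a b E U) {e g h : ι}
    (hq : ∀ q : ℝ × ℝ, q ∈ Cel a b E U ↔
      (ln a b e q.1 < q.2 ∧ ln a b g q.1 < q.2 ∧ q.2 < ln a b h q.1)) :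
    ∃ x y z : ℝ × ℝ, AffineIndependent ℝ ![x, y, z] ∧
      Cel a b E U = interior (convexHull ℝ {x, y, z}) := by
  obtain ⟨-, ⟨q0, hq0⟩, ⟨M, hM⟩, -⟩ := hBC
  have h0 := (hq q0).1 hq0
  unfold ln at hq h0
  have hsl := slopes (α1 := a h - a e) (β1 := b h - b e) (α2 := a h - a g) (β2 := b h - b g)
    (t0 := q0.1) (M := M) (by linarith) (by linarith) (by
      intro t k1 k2
      have h1 : max (a e * t + b e) (a g * t + b g) < a h * t + b h :=
        max_lt (by linarith) (by linarith)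
      have h2 := le_max_left (a e * t + b e) (a g * t + b g)
      have h3 := le_max_right (a e * t + b e) (a g * t + b g)
      exact hM (t, (a h * t + b h + max (a e * t + b e) (a g * t + b g)) / 2)
        ((hq _).2 ⟨by dsimp only; linarith, by dsimp only; linarith, by dsimp only; linarith⟩))
  rcases hsl with ⟨k1, k2⟩ | ⟨k1, k2⟩
  · obtain ⟨x, y, z, r1, r2⟩ := triB (a1 := a e) (b1 := b e) (a2 := a g) (b2 := b g) (c := a h)
      (d := b h) (t0 := q0.1) (by linarith) (by linarith) (by linarith) (by linarith)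
    refine ⟨x, y, z, r1, ?_⟩
    rw [← r2]
    ext q
    exact hq q
  · obtain ⟨x, y, z, r1, r2⟩ := triB (a1 := a g) (b1 := b g) (a2 := a e) (b2 := b e) (c := a h)
      (d := b h) (t0 := q0.1) (by linarith) (by linarith) (by linarith) (by linarith)
    refine ⟨x, y, z, r1, ?_⟩
    rw [← r2]
    ext q
    rw [hq q]
    simp only [Set.mem_ofPred_eq]
    tauto

theorem TRG.main (hFAC : S_FAC) (hGE3 : S_GE3) : S_TRG := by
  intro ι a b E U hD hBC h3
  obtain ⟨-, ⟨e1, he1, he1U⟩, e2, he2, he2U⟩ := hGE3 a b E U hD hBC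
  have hcell : ∀ q : ℝ × ℝ, q ∈ Cel a b E U ↔
      ∀ e ∈ Bd a b E U, (e ∈ U → q.2 < ln a b e q.1) ∧ (e ∉ U → ln a b e q.1 < q.2) := by
    intro q
    constructor
    · intro hq e he
      exact hq e (Finset.mem_filter.1 he).1
    · exact hFAC a b E U hD hBC.1 hBC.2.1 q
  obtain ⟨x, y, z, -, -, -, hB⟩ := Finset.card_eq_three.1 h3
  rw [hB] at he1 he2 hcell
  simp only [Finset.mem_insert, Finset.mem_singleton, forall_eq_or_imp, forall_eq] at hcell he1 he2
  by_cases hx : x ∈ U
  · by_cases hy : y ∈ U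
    · have hz : z ∉ U := by
        rcases he2 with rfl | rfl | rfl
        · exact absurd hx he2U
        · exact absurd hy he2U
        · exact he2U
      refine mainA hBC (e := x) (g := y) (h := z) fun q => ?_
      rw [hcell q]
      simp only [hx, hy, hz, not_true_eq_false, not_false_eq_true, forall_const, IsEmpty.forall_iff,
        and_true, true_and]
    · by_cases hz : z ∈ U
      · refine mainA hBC (e := x) (g := z) (h := y) fun q => ?_
        rw [hcell q]
        simp only [hx, hy, hz, not_true_eq_false, not_false_eq_true, forall_const, IsEmpty.forall_iff,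
          and_true, true_and]
        constructor <;> rintro ⟨k1, k2, k3⟩ <;> refine ⟨?_, ?_, ?_⟩ <;> assumption
      · refine mainB hBC (e := y) (g := z) (h := x) fun q => ?_
        rw [hcell q]
        simp only [hx, hy, hz, not_true_eq_false, not_false_eq_true, forall_const, IsEmpty.forall_iff,
          and_true, true_and]
        constructor <;> rintro ⟨k1, k2, k3⟩ <;> refine ⟨?_, ?_, ?_⟩ <;> assumption
  · by_cases hy : y ∈ U
    · by_cases hz : z ∈ U
      · refine mainA hBC (e := y) (g := z) (h := x) fun q => ?_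
        rw [hcell q]
        simp only [hx, hy, hz, not_true_eq_false, not_false_eq_true, forall_const, IsEmpty.forall_iff,
          and_true, true_and]
        constructor <;> rintro ⟨k1, k2, k3⟩ <;> refine ⟨?_, ?_, ?_⟩ <;> assumption
      · refine mainB hBC (e := x) (g := z) (h := y) fun q => ?_
        rw [hcell q]
        simp only [hx, hy, hz, not_true_eq_false, not_false_eq_true, forall_const, IsEmpty.forall_iff,
          and_true, true_and]
        constructor <;> rintro ⟨k1, k2, k3⟩ <;> refine ⟨?_, ?_, ?_⟩ <;> assumption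
    · have hz : z ∈ U := by
        rcases he1 with rfl | rfl | rfl
        · exact absurd he1U hx
        · exact absurd he1U hy
        · exact he1U
      refine mainB hBC (e := x) (g := y) (h := z) fun q => ?_
      rw [hcell q]
      simp only [hx, hy, hz, not_true_eq_false, not_false_eq_true, forall_const, IsEmpty.forall_iff,
        and_true, true_and]

end Pool.Agent.Helper36.TG
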